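import Pool.Agent.V7H35.SqCount
import Pool.Agent.N375.AV.D
import Pool.Agent.N375.AV.Ex

/-!
# The inequality `a(n) ≤ 1 + φ(n)` for ALL integers `n` near the values of additive functions

Let `n ^ 2 + a(n)` be the least prime greater than `n ^ 2`; the question is whether `a(n) ≤ 1 + φ(n)` for all `n`.

Let `F = f_1 ∘ ⋯ ∘ f_k` be a composition of functions dominated by the largest prime factor, for example of additive
functions such as `∑_{p | m} p`, of the largest prime factor, of the least `j` with `m | j!`. Let `G` have steps bounded below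
by a positive constant and growth at most `v ^ d`, and `κ ≥ 0`, `0.612 d + κ < 1` (for instance `G(v) = v`, `κ < 0.388`). There
are absolute constants `c, δ > 0` such that for all `m ≤ N` but `K N exp (- b (log N)^(1 / (k + 1)))` EVERY integer `n ≥ 1` with
`|n - G(F m)| ≤ F(m) ^ κ` satisfies the conjectured inequality `a(n) ≤ 1 + φ(n)`, and more: `a(n) ≤ n ^ (1 - δ)`, and ALL
intervals `(n ^ 2, n ^ 2 + h]` with `n ^ (1 - δ) ≤ h ≤ n` contain at least `c h / log n` primes.

The values of `F` are taken with very large multiplicities and `F(m)` is in general much smaller than `m`; and so this does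
not follow from the number of the exceptional `n`. The input is a starting theorem on the number of short intervals with few
primes (`Pool.Agent.Q278.KT.mainp_half`, helper240 and others), the tool is `Pool.Agent.N375.AV`.
-/

set_option autoImplicit false

namespace Pool.Agent.Results.MP_36c81c_nt.AdditiveValuesH35

open Pool.Agent.V7H35.SqCount (primes Rich q a Good count)
open Pool.Agent.N733.TG (Expanding expanding_pow)
open Pool.Agent.N375.AV (PD comp good pd_additive pd_largest pd_kempner)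

/-- **`a(n) ≤ 1 + φ(n)` near the values of additive functions.** (1) There are `c > 0` and `0 < δ ≤ 1 / 2` such that for
functions `f_i` dominated by the largest prime factor (`PD`), `F = f_1 ∘ ⋯ ∘ f_k` (`comp fs`), `G` with steps `≥ const > 0` and
growth at most `v ^ d`, and `κ ≥ 0` with `0.612 d + κ < 1`, for all `m ≤ N` but `K N exp (- b (log N)^(1 / (k + 1)))`, EVERY
integer `n ≥ 1` with `|n - G (F m)| ≤ F(m) ^ κ` satisfies `Good c δ n`, that is `a(n) ≤ n ^ (1 - δ)`, `a(n) ≤ 1 + φ(n)`, and for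
all real `h` with `n ^ (1 - δ) ≤ h ≤ n` the interval `(n ^ 2, n ^ 2 + h]` contains at least `c h / log n` primes. (2) - (4)
Examples of functions `f_i` and `G`. -/
theorem result :
    (∃ c δ : ℝ, 0 < c ∧ 0 < δ ∧ δ ≤ 1 / 2 ∧
      ∀ fs : List (ℕ → ℕ), (∀ f ∈ fs, PD f) → ∀ (G : ℕ → ℝ) (d : ℝ), Expanding G d → ∀ κ : ℝ, 0 ≤ κ →
        d * 0.612 + κ < 1 → ∃ b K : ℝ, 0 < b ∧ ∀ N : ℕ, 1 ≤ N →
          ({m : ℕ | 1 ≤ m ∧ m ≤ N ∧ ¬ ∀ n : ℕ, 1 ≤ n → |(n : ℝ) - G (comp fs m)| ≤ (comp fs m : ℝ) ^ κ →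
            Good c δ n}.ncard : ℝ) ≤
          K * N * Real.exp (-(b * Real.log N ^ ((1 : ℝ) / (fs.length + 1))))) ∧
    (∀ f : ℕ → ℕ, (∀ a b : ℕ, Nat.Coprime a b → f (a * b) = f a + f b) →
      (∃ C : ℕ, ∀ q j : ℕ, q.Prime → 1 ≤ j → f (q ^ j) ≤ C * q ^ j) →
      (∃ P : ℕ, ∀ p q : ℕ, p.Prime → q.Prime → P ≤ p → P ≤ q → f p = f q → p = q) → PD f) ∧
    (PD (fun n => n.primeFactors.sup id) ∧ PD (fun n => sInf {k : ℕ | n ∣ k.factorial})) ∧
    ∀ A d : ℝ, 0 < A → 1 ≤ d → Expanding (fun v => A * (v : ℝ) ^ d) d := by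
  refine ⟨?_, fun f a1 a2 a3 => pd_additive a1 a2 a3, ⟨pd_largest, pd_kempner⟩, fun a d ha hd => expanding_pow ha hd⟩
  obtain ⟨c, δ, hc, hδ, hδ1, hS⟩ := count
  refine ⟨c, δ, hc, hδ, hδ1, fun fs hfs G d hG κ hκ h1 => ?_⟩
  exact good (fun n : ℕ => 1 ≤ n) (fun n => Good c δ n) (fun n : ℕ => (n : ℝ)) fs hfs hG (s := 0.612) (κ := κ)
    (by norm_num) hκ h1 hS

end Pool.Agent.Results.MP_36c81c_nt.AdditiveValuesH35
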