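import Pool.Agent.V7H35.SqCount
import Pool.Agent.N671.DA.Win

/-!
# The inequality `a(n) ≤ 1 + φ(n)` for ALL integers `n` near functions of the denominators of good approximations

Let `n ^ 2 + a(n)` be the least prime greater than `n ^ 2`; the question is whether `a(n) ≤ 1 + φ(n)` for all `n`.

Let `α_1, …, α_m` be real numbers. We consider the natural numbers `q` with `‖q α_j - β_j‖ ≤ C q^(-τ)` for all `j`, `‖x‖` the
distance to the nearest integer; for `β = 0`, `C = 1`, `τ = 1 / m` these include the denominators of all best simultaneous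
approximations (the denominators of the convergents for `m = 1`). Let `G` have steps bounded below by a positive constant and
growth at most `v^d`, for example `G(q) = q` or `a q^d`, and `0 ≤ κ ≤ 1`.

There are absolute constants `c, δ > 0` such that for all `α` in `ℝ^m` outside a set of Hausdorff dimension at most
`(m + 0.612 d + κ) / (1 + τ)`, for all but finitely many such `q`, EVERY integer `n ≥ 1` with `|n - G(q)| ≤ q^κ` satisfies
the conjectured inequality `a(n) ≤ 1 + φ(n)`, and more: `a(n) ≤ n ^ (1 - δ)`, and ALL intervals `(n ^ 2, n ^ 2 + h]` with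
`n ^ (1 - δ) ≤ h ≤ n` contain at least `c h / log n` primes. If `0.612 d + κ < τ m`, for instance for the denominators of the
best approximations, `d ≤ 1.6` and small `κ`, this holds for almost all `α`.

The input is a starting theorem on the number of short intervals with few primes (`Pool.Agent.Q278.KT.mainp_half`, helper240
and others): the number of the `n ≤ X` without this property is at most `C X ^ 0.612`. The tool is `Pool.Agent.N671.DA`.
-/

set_option autoImplicit false

namespace Pool.Agent.Results.MP_36c81c_nt.GoodApproximationsH35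

open Pool.Agent.V7H35.SqCount (primes Rich q a Good count)
open Pool.Agent.N671.DA (Solves Expanding expanding_pow approx_good)

/-- **`a(n) ≤ 1 + φ(n)` near the denominators of good approximations.** (1) There are `c > 0` and `0 < δ ≤ 1 / 2` such that for
all `G` with steps `≥ const > 0` and growth at most `v^d`, all `0 ≤ κ ≤ 1`, `β` in `ℝ^m` and `τ > 0`, for all `α` in `ℝ^m`
outside a set of Hausdorff dimension at most `(m + 0.612 d + κ) / (1 + τ)` and all `C`, for all large `q` with
`‖q α_j - β_j‖ ≤ C q^(-τ)` for all `j`, EVERY integer `n ≥ 1` with `|n - G q| ≤ q^κ` satisfies `Good c δ n`, that is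
`a(n) ≤ n ^ (1 - δ)`, `a(n) ≤ 1 + φ(n)`, and for all real `h` with `n ^ (1 - δ) ≤ h ≤ n` the interval `(n ^ 2, n ^ 2 + h]`
contains at least `c h / log n` primes. (2) The functions `A v^d` with `A > 0`, `d ≥ 1` are examples of `G`. -/
theorem result :
    (∃ c δ : ℝ, 0 < c ∧ 0 < δ ∧ δ ≤ 1 / 2 ∧ ∀ (G : ℕ → ℝ) (d : ℝ), Expanding G d → ∀ κ : ℝ, 0 ≤ κ → κ ≤ 1 →
      ∀ (m : ℕ) (β : Fin m → ℝ) (τ : ℝ), 0 < τ →
      ∃ E : Set (Fin m → ℝ), dimH E ≤ ENNReal.ofReal ((m + (d * 0.612 + κ)) / (1 + τ)) ∧
        ∀ α, α ∉ E → ∀ C : ℝ, ∃ Q : ℕ, ∀ q : ℕ, Q ≤ q → Solves α β q (C * (q : ℝ) ^ (-τ)) →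
          ∀ n : ℕ, 1 ≤ n → |(n : ℝ) - G q| ≤ (q : ℝ) ^ κ → Good c δ n) ∧
    ∀ A d : ℝ, 0 < A → 1 ≤ d → Expanding (fun v => A * (v : ℝ) ^ d) d := by
  refine ⟨?_, fun a d ha hd => expanding_pow ha hd⟩
  obtain ⟨c, δ, hc, hδ, hδ1, hS⟩ := count
  refine ⟨c, δ, hc, hδ, hδ1, fun G d hG κ hκ hκ1 m β τ hτ => ?_⟩
  obtain ⟨E, hE, hE2⟩ := approx_good (fun n : ℕ => 1 ≤ n) (fun n => Good c δ n) (fun n : ℕ => (n : ℝ)) hG
    (s := 0.612) (κ := κ) (by norm_num) hκ hκ1 hS β hτ
  exact ⟨E, hE, hE2⟩

end Pool.Agent.Results.MP_36c81c_nt.GoodApproximationsH35
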