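import Pool.Agent.V7H35.SqCount
import Pool.Agent.N760.IT.D

/-!
# The inequality `a(n) ≤ 1 + φ(n)` for ALL integers `n` near the members of almost all orbits of Euler's function

Let `n ^ 2 + a(n)` be the least prime greater than `n ^ 2`; the question is whether `a(n) ≤ 1 + φ(n)` for all `n`.

Let `φ_k` be the `k`-th iterate of Euler's function, `φ_0(m) = m`, let `f` be a positive multiplicative function of at most
polynomial growth with `f(p) ≤ M p` at the large primes `p` and injective there, for example the identity, Euler's function or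
the sum of the divisors, let `G` have steps bounded below by a positive constant and growth at most `v ^ d`, for example `v` or
`A v ^ d`, and `κ ≥ 0`, `0.612 d + κ < 1` (for instance `d = 1`, `κ < 0.388`, or `d = 1.6`, `κ < 0.02`). There are absolute
constants `c, δ > 0` and `K(m)` tending to infinity such that for almost all `m`, for all `k ≤ K(m)` and `v = f(φ_k(m))`, EVERY
integer `n ≥ 1` with `|n - G(v)| ≤ v ^ κ` satisfies the conjectured inequality `a(n) ≤ 1 + φ(n)`, and more:
`a(n) ≤ n ^ (1 - δ)`, and ALL intervals `(n ^ 2, n ^ 2 + h]` with `n ^ (1 - δ) ≤ h ≤ n` contain at least `c h / log n` primes.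

The values `f(φ_k(m))` are in general taken with very large multiplicities, and so this does not follow from the number of the
exceptional `n`. The input is a starting theorem on the number of short intervals with few primes
(`Pool.Agent.Q278.KT.mainp_half`, helper240 and others), the tool is `Pool.Agent.N760.IT`.
-/

set_option autoImplicit false

namespace Pool.Agent.Results.MP_36c81c_nt.TotientOrbitsH35

open Filter
open Pool.Agent.V7H35.SqCount (primes Rich q a Good count)
open Pool.Agent.N733.TG (LM Expanding lm_totient lm_sigma expanding_pow)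
open Pool.Agent.N760.IT (orb lm_id orbit_good)
open Pool.Agent.N826.IT.Orb (AlmostAll)

/-- **`a(n) ≤ 1 + φ(n)` near the orbits of Euler's function.** (1) There are `c > 0` and `0 < δ ≤ 1 / 2` such that for
multiplicative positive `f` of at most polynomial growth, with `f p ≤ M p` at the large primes, and injective there (`LM f`),
for `G` with steps `≥ const > 0` and growth at most `v ^ d`, and `κ ≥ 0` with `0.612 d + κ < 1`, there is `K(m)` tending to
infinity such that for almost all `m`, for all `k ≤ K(m)`, with `v = f(φ_k(m))` (`orb f k m`), EVERY integer `n ≥ 1` with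
`|n - G v| ≤ v ^ κ` satisfies `Good c δ n`, that is `a(n) ≤ n ^ (1 - δ)`, `a(n) ≤ 1 + φ(n)`, and for all real `h` with
`n ^ (1 - δ) ≤ h ≤ n` the interval `(n ^ 2, n ^ 2 + h]` contains at least `c h / log n` primes. (2), (3) The identity, Euler's
function and the sum of the divisors are examples of such functions `f`, and `A v ^ d` with `A > 0`, `d ≥ 1` is an example of
`G`. -/
theorem result :
    (∃ c δ : ℝ, 0 < c ∧ 0 < δ ∧ δ ≤ 1 / 2 ∧
      ∀ f : ℕ → ℕ, LM f → ∀ (G : ℕ → ℝ) (d : ℝ), Expanding G d → ∀ κ : ℝ, 0 ≤ κ → d * 0.612 + κ < 1 →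
        ∃ K : ℕ → ℕ, Tendsto K atTop atTop ∧
          AlmostAll (fun m => ∀ k ≤ K m, ∀ n : ℕ, 1 ≤ n → |(n : ℝ) - G (orb f k m)| ≤ (orb f k m : ℝ) ^ κ →
            Good c δ n)) ∧
    (LM (fun m => m) ∧ LM Nat.totient ∧ LM (fun m => ∑ d ∈ m.divisors, d)) ∧
    ∀ A d : ℝ, 0 < A → 1 ≤ d → Expanding (fun v => A * (v : ℝ) ^ d) d := by
  refine ⟨?_, ⟨lm_id, lm_totient, lm_sigma⟩, fun a d ha hd => expanding_pow ha hd⟩
  obtain ⟨c, δ, hc, hδ, hδ1, hS⟩ := count
  refine ⟨c, δ, hc, hδ, hδ1, fun f hf G d hG κ hκ h1 => ?_⟩
  exact orbit_good (fun n : ℕ => 1 ≤ n) (fun n => Good c δ n) (fun n : ℕ => (n : ℝ)) hf hG (s := 0.612) (κ := κ)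
    (by norm_num) hκ h1 hS

end Pool.Agent.Results.MP_36c81c_nt.TotientOrbitsH35
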